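import Pool.Agent.Lib.SB97.Blue
import Pool.Agent.Lib.SL94.B_FIN

/-! Laws with an atom at zero: shift and cap the weights, then pass to the limit. -/

namespace Pool.Agent.Lib.SB97

open MeasureTheory ProbabilityTheory Filter Topology Finset Pool.Agent.Lib.FP95
open Pool.Agent.Lib.MP_eba68f_pr hiding Nice
open Pool.Agent.Lib.SL94 (SW T Sys)
open scoped NNReal ENNReal

/-- the final statement, atoms at zero allowed -/
def St_FIN0 : Prop := ∀ (F : Measure ℝ≥0) [IsProbabilityMeasure F] (r : ℝ≥0),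
  Integrable (fun t : ℝ≥0 => (t : ℝ)) F → F (Set.Iio r) = 0 →
  (∀ s, r < s → 0 < F (Set.Iic s)) → F {r} < 1 / 256 →
  ∃ c : ℝ, 0 < c ∧ ∃ N : ℝ, ∀ v : Fin 2 → ℤ, N ≤ |(v 0 : ℝ)| + |(v 1 : ℝ)| →
    ENNReal.ofReal (Real.exp (c * Real.log (|(v 0 : ℝ)| + |(v 1 : ℝ)|) ^ (1 / 3 : ℝ))) ≤
      evariance (fun τ => passage τ 0 v) (Measure.infinitePi fun _ : (lattice 2).edgeSet => F)

namespace ZERO

open Pool.Agent.Lib.SL94

lemma var_lim {Ω : Type} [MeasurableSpace Ω] (μ : Measure Ω) [IsProbabilityMeasure μ]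
    (X : ℕ → Ω → ℝ) (Z Y : Ω → ℝ) (c : ℝ) (hX : ∀ j, Measurable (X j)) (hY : MemLp Y 2 μ)
    (hb : ∀ j ω, |X j ω| ≤ Y ω) (hl : ∀ ω, Tendsto (fun j => X j ω) atTop (𝓝 (Z ω)))
    (hc : ∀ j, c ≤ variance (X j) μ) : c ≤ variance Z μ := by
  have hZ : Measurable Z := measurable_of_tendsto_metrizable hX (tendsto_pi_nhds.2 hl)
  have hZb : ∀ ω, |Z ω| ≤ Y ω := fun ω => le_of_tendsto' (hl ω).abs fun j => hb j ω
  have m1 : ∀ j, MemLp (X j) 2 μ := fun j =>
    hY.mono' (hX j).aestronglyMeasurable (ae_of_all _ (hb j))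
  have m2 : MemLp Z 2 μ := hY.mono' hZ.aestronglyMeasurable (ae_of_all _ hZb)
  have t1 : Tendsto (fun j => ∫ ω, X j ω ∂μ) atTop (𝓝 (∫ ω, Z ω ∂μ)) :=
    tendsto_integral_of_dominated_convergence Y (fun j => (hX j).aestronglyMeasurable)
      (hY.integrable (by norm_num)) (fun j => ae_of_all _ (hb j)) (ae_of_all _ hl)
  have t2 : Tendsto (fun j => ∫ ω, X j ω ^ 2 ∂μ) atTop (𝓝 (∫ ω, Z ω ^ 2 ∂μ)) := by
    refine tendsto_integral_of_dominated_convergence (fun ω => Y ω ^ 2)
      (fun j => ((hX j).pow_const 2).aestronglyMeasurable) hY.integrable_sq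
      (fun j => ae_of_all _ fun ω => ?_) (ae_of_all _ fun ω => (hl ω).pow 2)
    rw [Real.norm_eq_abs, abs_pow]
    exact pow_le_pow_left₀ (abs_nonneg _) (hb j ω) 2
  rw [variance_eq_sub m2]
  refine ge_of_tendsto' (t2.sub (t1.pow 2)) fun j => ?_
  have := hc j
  rw [variance_eq_sub (m1 j)] at this
  exact this

/-- image law -/
noncomputable def pm (p : Par) (f : ℝ≥0 → ℝ≥0) (hf : Measurable f) : Par :=
  { p with F := p.F.map f, prob := Measure.isProbabilityMeasure_map hf.aemeasurable }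

lemma meas_comp {f : ℝ≥0 → ℝ≥0} (hf : Measurable f) :
    Measurable fun (τ : Cfg) (e : Sym2 V) => f (τ e) :=
  measurable_pi_lambda _ fun e => hf.comp (measurable_pi_apply e)

lemma P_map (p : Par) {f : ℝ≥0 → ℝ≥0} (hf : Measurable f) :
    (pm p f hf).P = p.P.map fun τ e => f (τ e) :=
  (Measure.infinitePi_map_pi (fun _ : Sym2 V => p.F) (f := fun _ => f) fun _ => hf).symm

lemma pr_map (p : Par) {f : ℝ≥0 → ℝ≥0} (hf : Measurable f) (u v : V) (t : ℝ) :
    (pm p f hf).pr {τ | T τ u v < t} = p.pr {τ | T (fun e => f (τ e)) u v < t} := by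
  unfold Par.pr
  rw [P_map, map_measureReal_apply (meas_comp hf) (meas_lt u v t)]
  rfl

lemma var_map (p : Par) {f : ℝ≥0 → ℝ≥0} (hf : Measurable f) (u v : V) :
    variance (fun τ => T τ u v) (pm p f hf).P =
      variance (fun τ => T (fun e => f (τ e)) u v) p.P := by
  rw [P_map, variance_map (T_meas u v).aemeasurable (meas_comp hf).aemeasurable]
  rfl

lemma SW_add (τ : Cfg) (ε : ℝ≥0) (l : List (Sym2 V)) :
    SW (fun e => τ e + ε) l = SW τ l + ε * l.length := by
  induction l with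
  | nil => simp
  | cons a l ih => simp only [SW_cons, ih, List.length_cons]; push_cast; ring

lemma T_shift (τ : Cfg) (u v : V) (ε : ℕ → ℝ≥0) (hε : Tendsto ε atTop (𝓝 0)) :
    Tendsto (fun j => T (fun e => τ e + ε j) u v) atTop (𝓝 (T τ u v)) := by
  refine tendsto_order.2 ⟨fun a ha => Eventually.of_forall fun j => ha.trans_le
    (T_mono (fun e => le_self_add) u v), fun a ha => ?_⟩
  obtain ⟨q, -, hq⟩ := exists_lt ha
  have h1 : Tendsto (fun j => SW τ q.edges + (ε j : ℝ) * q.edges.length) atTop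
      (𝓝 (SW τ q.edges + ((0 : ℝ≥0) : ℝ) * q.edges.length)) :=
    ((NNReal.tendsto_coe.2 hε).mul_const _).const_add _
  rw [NNReal.coe_zero, zero_mul, add_zero] at h1
  filter_upwards [h1.eventually (gt_mem_nhds hq)] with j hj
  exact ((T_le_SW _ q).trans_eq (SW_add τ _ _)).trans_lt hj

lemma SW_cap (τ : Cfg) (R : ℝ≥0) (l : List (Sym2 V)) :
    min (SW τ l) R ≤ SW (fun e => min (τ e) R) l := by
  induction l with
  | nil => simp
  | cons a l ih =>
    simp only [SW_cons, NNReal.coe_min]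
    have h1 := SW_nonneg (fun e => min (τ e) R) l
    have h2 := (τ a).coe_nonneg
    rcases le_total (τ a : ℝ) R with h | h
    · rw [min_eq_left h]
      rcases le_total (SW τ l) R with h' | h'
      · rw [min_eq_left h'] at ih
        exact (min_le_left _ _).trans (by linarith)
      · rw [min_eq_right h'] at ih
        exact (min_le_right _ _).trans (by linarith)
    · rw [min_eq_right h]
      exact (min_le_right _ _).trans (by linarith)

lemma T_cap (τ : Cfg) (u v : V) (a : ℝ≥0) :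
    Tendsto (fun j : ℕ => T (fun e => min (τ e) (a + j)) u v) atTop (𝓝 (T τ u v)) := by
  refine tendsto_const_nhds.congr' ?_
  filter_upwards [eventually_ge_atTop ⌈T τ u v⌉₊] with j hj
  refine le_antisymm (le_T fun q => le_trans (le_min (T_le_SW τ q) ?_) (SW_cap τ _ _))
    (T_mono (fun e => min_le_left _ _) u v)
  have h1 : T τ u v ≤ j := (Nat.le_ceil _).trans (by exact_mod_cast hj)
  have h2 := a.coe_nonneg
  push_cast
  linarith

lemma T_bdd {τ : Cfg} {c : ℝ} (h : ∀ e, (τ e : ℝ) ≤ c) (x : V) : T τ 0 x ≤ c * n1 (x - 0) := by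
  obtain ⟨q, hq⟩ := exists_walk 0 x
  refine (T_le_SW τ q).trans ((SW_le_mul fun e _ => h e).trans_eq ?_)
  rw [SimpleGraph.Walk.length_edges, hq]

end ZERO

open ZERO Pool.Agent.Lib.SL94 in
theorem bFIN0 (hL : St_LIN) (hT : St_TOP) (hA : St_ARITH) (hR : St_RATE) : St_FIN0 := by
  intro F _ r hint hFr hs h0
  obtain ⟨hi, rh, -, hh⟩ := FIN.level F r (r + 1) hFr (lt_add_one r) _ h0
  have rh' : (r : ℝ) < hi := rh
  set lo : ℝ≥0 := (r + hi) / 2 with hlo
  have l0 : (lo : ℝ) = (r + hi) / 2 := by rw [hlo]; push_cast; ring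
  have l1 : r < lo := by rw [← NNReal.coe_lt_coe]; linarith
  have l2 : lo < hi := by rw [← NNReal.coe_lt_coe]; linarith
  let p : Par := { F := F, prob := inferInstance, r := 1, b := 1, r_pos := one_pos, r_le := le_rfl }
  have hq : 0 < F.real (Set.Iic lo) := ENNReal.toReal_pos (hs _ l1).ne' (measure_ne_top _ _)
  have hq1 : F.real (Set.Iic lo) ≤ 1 := measureReal_le_one
  have hrare : F.real (Set.Iic hi) ≤ 1 / 256 := by
    refine ENNReal.toReal_le_of_le_ofReal (by norm_num) (hh.le.trans_eq ?_)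
    rw [ENNReal.ofReal_div_of_pos (by norm_num)]; simp
  have m1 : Measurable fun t : ℝ≥0 => t + 1 := by fun_prop
  obtain ⟨K, K0, hK⟩ := hL (pm p _ m1) (by
    refine (integrable_map_measure (by fun_prop) m1.aemeasurable).2 ?_
    exact (hint.add (integrable_const (1 : ℝ))).congr (ae_of_all _ fun t => by simp))
  have hi0 : (0 : ℝ) < hi := lt_of_le_of_lt r.coe_nonneg rh'
  obtain ⟨C₀, hC⟩ := exists_nat_ge (max 2 ((12 * K + (hi - lo)) / hi))
  have C2 : 2 ≤ C₀ := by exact_mod_cast (le_max_left _ _).trans hC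
  have C3 : 12 * K + (hi - lo) ≤ hi * C₀ := by
    have := (le_max_right _ _).trans hC
    rwa [div_le_iff₀ hi0, mul_comm (C₀ : ℝ)] at this
  set q := F.real (Set.Iic lo) with hqd
  obtain ⟨C, hCk⟩ := hA ((q / 2560) ^ 2) C₀ (by positivity)
    (pow_le_one₀ (by positivity) (by linarith))
  have hd : (0 : ℝ) < hi - lo := sub_pos.2 l2
  obtain ⟨c, c0, N, hN⟩ := hR (q ^ 2 * ((q / 2560) ^ 2) ^ 3 * ((hi : ℝ) - lo) ^ 2 / 1024) C
    (by positivity)
  refine ⟨c, c0, N, fun v hv => ?_⟩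
  have e := (FIN.ident p v).evariance_eq
  refine le_trans ?_ e.ge
  rcases eq_or_ne (evariance (fun τ => T τ 0 v) p.P) ⊤ with ht | ht
  · exact le_top.trans ht.ge
  have hm : MemLp (fun τ => T τ 0 v) 2 p.P :=
    (evariance_lt_top_iff_memLp (T_meas 0 v).aestronglyMeasurable).1 ht.lt_top
  rw [← ofReal_variance hm]
  refine ENNReal.ofReal_le_ofReal (hN (n1 v) _ hv fun k hk hx => ?_)
  obtain ⟨M, ρ₀, a1, a2, a3, a4⟩ := hCk k hk
  refine var_lim p.P (fun j τ => T (fun e => min (τ e) (hi + 1 + j)) 0 v) _ _ _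
    (fun j => (T_meas 0 v).comp (meas_comp (f := fun t => min t (hi + 1 + j)) (by fun_prop))) hm
    (fun j τ => by
      rw [abs_of_nonneg (T_nonneg _ _ _)]; exact T_mono (fun e => min_le_left _ _) 0 v)
    (fun τ => T_cap τ 0 v (hi + 1)) fun j => ?_
  set R : ℝ≥0 := hi + 1 + j with hRd
  have hR1 : hi < R := lt_of_lt_of_le (lt_add_one hi) le_self_add
  have mf : ∀ ε : ℝ≥0, Measurable fun t : ℝ≥0 => min t R + ε := fun ε => by fun_prop
  have hb : ∀ (ε : ℝ≥0), ε ≤ 1 → ∀ τ : Cfg,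
      |T (fun e => min (τ e) R + ε) 0 v| ≤ (R + 1) * n1 (v - 0) := fun ε hε τ => by
    rw [abs_of_nonneg (T_nonneg _ _ _)]
    exact T_bdd (fun e => by exact_mod_cast add_le_add (min_le_right _ _) hε) v
  have he1 : ∀ i : ℕ, (1 / ((i : ℝ≥0) + 1)) ≤ 1 := fun i =>
    div_le_one_of_le₀ le_add_self (by positivity)
  refine var_lim p.P (fun i τ => T (fun e => min (τ e) R + 1 / ((i : ℝ≥0) + 1)) 0 v) _
    (fun _ => (R + 1) * n1 (v - 0)) _ (fun i => (T_meas 0 v).comp (meas_comp (mf _)))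
    (memLp_const _) (fun i => hb _ (he1 i))
    (fun τ => T_shift _ 0 v _ tendsto_one_div_add_atTop_nhds_zero_nat) fun i => ?_
  set ε : ℝ≥0 := 1 / ((i : ℝ≥0) + 1) with hε
  have ε0 : 0 < ε := by positivity
  have pre : ∀ s : ℝ≥0, s < R → (fun t : ℝ≥0 => min t R + ε) ⁻¹' Set.Iic (s + ε) = Set.Iic s := by
    intro s hs
    ext t
    simp [hs.not_ge]
  have real_pre : ∀ s : ℝ≥0, s < R →
      (F.map fun t : ℝ≥0 => min t R + ε).real (Set.Iic (s + ε)) = F.real (Set.Iic s) := by
    intro s hs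
    rw [map_measureReal_apply (mf ε) measurableSet_Iic, pre s hs]
  let ps : Sys :=
    { pm p _ (mf ε) with
      r0 := r + ε
      lo := lo + ε
      hi := hi + ε
      lo_lt := add_lt_add_left l2 ε
      mid := by push_cast; linarith
      zero := by
        change F.map _ _ = 0
        rw [Measure.map_apply (mf ε) (measurableSet_singleton _)]
        convert measure_empty (μ := F)
        ext t
        simp [ε0.ne']
      supp := by
        change F.map _ _ = 0
        rw [Measure.map_apply (mf ε) measurableSet_Iio, ← hFr]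
        congr 1
        ext t
        simp [(rh.trans hR1).not_gt]
      q_pos := by
        change 0 < (F.map _).real _
        rw [real_pre lo (l2.trans hR1)]
        exact hq }
  have eq1 : ps.q = q := real_pre lo (l2.trans hR1)
  have eq2 : ps.d = hi - lo := by
    change ((hi + ε : ℝ≥0) : ℝ) - (lo + ε : ℝ≥0) = _
    push_cast; ring
  have key := hT ps ((real_pre hi hR1).trans_le hrare) K C₀ ρ₀ M k K0
    (fun u w t h => hK u w t (by
      change (pm p _ (mf ε)).pr _ ≤ _ at h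
      rw [pr_map] at h ⊢
      refine le_trans (measureReal_mono fun τ hτ => ?_) h
      exact lt_of_le_of_lt (T_mono (fun e => add_le_add (min_le_left _ _) (he1 i)) u w) hτ))
    C2 (by
      rw [eq2]
      change _ ≤ ((hi + ε : ℝ≥0) : ℝ) * C₀
      have : (0 : ℝ) ≤ ε * C₀ := by positivity
      push_cast; linarith) hk a1 (by rw [eq1]; exact a2) (by rw [eq1]; exact a3) v
    (le_trans (by exact_mod_cast a4) hx) (by
      change MemLp _ 2 (pm p _ (mf ε)).P
      rw [P_map, memLp_map_measure_iff (T_meas 0 v).aestronglyMeasurable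
        (meas_comp (mf ε)).aemeasurable]
      exact (memLp_const ((R + 1) * n1 (v - 0) : ℝ)).mono'
        ((T_meas 0 v).comp (meas_comp (mf ε))).aestronglyMeasurable (ae_of_all _ (hb ε (he1 i))))
  rw [eq1, eq2] at key
  exact key.trans_eq (var_map p (mf ε) 0 v)

end Pool.Agent.Lib.SB97
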